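import Pool.Agent.Y745.LD.DefsB
import Pool.Agent.H345R2.Chi
import Pool.Agent.W479.BU.Msz
import Pool.Agent.W655.SD.SC2
import Pool.Agent.W356.SD.C1
import Pool.Agent.W261.SD.SSq
import Pool.Agent.W688.SD.SAN
import Pool.Agent.W335.SD.SMel
import Pool.Agent.W32.SD.SMelG
import Pool.Agent.W352.SD.SPlan
import Pool.Agent.W261.SD.SGamLow
import Pool.Agent.W356.SD.Big
import Pool.Agent.W108.SD.SRep
import Pool.Agent.W85.SD.Small

/-!
Project LD (helper745), job ZUP: crude upper bound for zeta near the critical line.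
-/

set_option autoImplicit false

namespace Pool.Agent.Y914.LD

open Complex MeasureTheory Set Filter Topology
open Pool.Agent.Y745.LD

theorem san : Pool.Agent.H24R2.DZ.SAN :=
  Pool.Agent.W688.SD.san (Pool.Agent.W32.SD.smelG Pool.W335.SD.smel)
    Pool.Agent.W352.SD.splan Pool.Agent.W261.SD.sgamlow
    Pool.Agent.W356.SD.sbig Pool.Agent.W108.SD.srep Pool.Agent.W85.SD.ssmall

/-- the functional equation, as an inequality -/
theorem left_bound : ∃ K : ℝ, 0 < K ∧ ∀ σ t : ℝ, 0 ≤ σ → σ ≤ 1 / 2 → 1 ≤ t →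
    ‖riemannZeta (((1 / 2 - σ : ℝ) : ℂ) + t * I)‖ ≤
      Real.exp K * t ^ σ * ‖riemannZeta (((1 / 2 + σ : ℝ) : ℂ) + t * I)‖ := by
  obtain ⟨K, hK, hX⟩ := H345.Chi.XX_size
  refine ⟨K, hK, fun σ t h0 h1 ht => ?_⟩
  set s : ℂ := ((1 / 2 + σ : ℝ) : ℂ) + t * I with hs
  have hre : s.re = 1 / 2 + σ := by simp [hs]
  have him : s.im = t := by simp [hs]
  have hcim : ((starRingEnd ℂ) s).im = -t := by rw [Complex.conj_im, him]
  have h2 := H345.zeta_fe ((starRingEnd ℂ) s) (by
    intro n hn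
    have := congrArg Complex.im hn
    rw [hcim] at this
    simp at this
    linarith) (by
    intro hn
    have := congrArg Complex.im hn
    rw [hcim] at this
    simp at this
    linarith)
  have e1 : 1 - (starRingEnd ℂ) s = ((1 / 2 - σ : ℝ) : ℂ) + t * I := by
    apply Complex.ext
    · simp [hre]; ring
    · simp [him]
  rw [e1, H345.Chi.XX_conj, riemannZeta_conj] at h2
  rw [h2, norm_mul, Complex.norm_conj, Complex.norm_conj]
  have h4 := (hX s (by rw [hre]; linarith) (by rw [hre]; linarith) (by rw [him]; exact ht)).2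
  rw [hre, him] at h4
  rw [show 1 / 2 + σ - 1 / 2 = σ by ring] at h4
  exact mul_le_mul_of_nonneg_right h4 (norm_nonneg _)

/-- the mean square near the critical line -/
theorem ms_near : ∃ C T0 : ℝ, 0 < C ∧ 10 ≤ T0 ∧ ∀ T x : ℝ, T0 ≤ T → |x| ≤ 2 / Real.log T →
    ∫ t in (T / 4)..(4 * T), ‖riemannZeta (((1 / 2 + x : ℝ) : ℂ) + t * I)‖ ^ 2 ≤
      C * T * Real.log T := by
  obtain ⟨K, hK, hfe⟩ := left_bound
  obtain ⟨C, T0, hC, hT0, hms⟩ := Pool.Agent.W479.BU.ms_half san
  refine ⟨Real.exp (2 * K + 8) * C, max T0 (Real.exp 10), by positivity, ?_, fun T x hT hx => ?_⟩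
  · refine le_trans ?_ (le_max_right _ _)
    have := Real.add_one_le_exp (10 : ℝ)
    linarith
  have hTT0 : T0 ≤ T := (le_max_left _ _).trans hT
  have hTe : Real.exp 10 ≤ T := (le_max_right _ _).trans hT
  have hT10 : 10 ≤ T := by
    have := Real.add_one_le_exp (10 : ℝ)
    linarith
  have hTp : 0 < T := by linarith
  have hL10 : 10 ≤ Real.log T := (Real.le_log_iff_exp_le hTp).mpr hTe
  have hLp : 0 < Real.log T := by linarith
  have hx5 : |x| ≤ 1 / 5 := by
    refine hx.trans ?_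
    rw [div_le_div_iff₀ hLp (by norm_num)]
    linarith
  have hx1 := (abs_le.mp hx5).1
  have hx2 := (abs_le.mp hx5).2
  have hE1 : 1 ≤ Real.exp (2 * K + 8) := Real.one_le_exp (by linarith)
  have hCT : 0 ≤ C * T * Real.log T := by positivity
  rcases le_total 0 x with h0 | h0
  · have h1 := hms T (1 / 2 + x) hTT0 (by linarith) (by linarith)
    refine h1.trans ?_
    calc C * T * Real.log T = 1 * (C * T * Real.log T) := (one_mul _).symm
      _ ≤ Real.exp (2 * K + 8) * (C * T * Real.log T) := mul_le_mul_of_nonneg_right hE1 hCT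
      _ = _ := by ring
  · have h1 := hms T (1 / 2 - x) hTT0 (by linarith) (by linarith)
    have hpt : ∀ t ∈ Icc (T / 4) (4 * T), ‖riemannZeta (((1 / 2 + x : ℝ) : ℂ) + t * I)‖ ^ 2 ≤
        Real.exp (2 * K + 8) * ‖riemannZeta (((1 / 2 - x : ℝ) : ℂ) + t * I)‖ ^ 2 := by
      intro t ht
      have ht1 : 1 ≤ t := by linarith [ht.1]
      have ht0 : 0 < t := by linarith
      have h2 := hfe (-x) t (by linarith) (by linarith) ht1
      rw [sub_neg_eq_add, ← sub_eq_add_neg] at h2
      have h3 : t ^ (-x) ≤ Real.exp 4 := by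
        rw [Real.rpow_def_of_pos ht0]
        apply Real.exp_le_exp.mpr
        have h4 : Real.log t ≤ 2 * Real.log T := by
          have h5 : Real.log t ≤ Real.log (4 * T) := Real.log_le_log ht0 ht.2
          rw [Real.log_mul (by norm_num) hTp.ne'] at h5
          have h6 : Real.log 4 ≤ Real.log T := Real.log_le_log (by norm_num) (by linarith)
          linarith
        have h7 : -x ≤ 2 / Real.log T := by
          have := neg_abs_le x
          linarith
        have h8 : 0 ≤ Real.log t := Real.log_nonneg ht1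
        calc Real.log t * -x ≤ (2 * Real.log T) * (2 / Real.log T) := by
              apply mul_le_mul h4 h7 (by linarith) (by positivity)
          _ = 4 := by field_simp; norm_num
      have h9 : ‖riemannZeta (((1 / 2 + x : ℝ) : ℂ) + t * I)‖ ≤
          Real.exp (K + 4) * ‖riemannZeta (((1 / 2 - x : ℝ) : ℂ) + t * I)‖ := by
        refine h2.trans ?_
        rw [Real.exp_add]
        gcongr
      calc ‖riemannZeta (((1 / 2 + x : ℝ) : ℂ) + t * I)‖ ^ 2 ≤
          (Real.exp (K + 4) * ‖riemannZeta (((1 / 2 - x : ℝ) : ℂ) + t * I)‖) ^ 2 :=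
            pow_le_pow_left₀ (norm_nonneg _) h9 2
        _ = _ := by
            rw [mul_pow, ← Real.exp_nat_mul]
            congr 2
            push_cast
            ring
    have hab : T / 4 ≤ 4 * T := by linarith
    calc ∫ t in (T / 4)..(4 * T), ‖riemannZeta (((1 / 2 + x : ℝ) : ℂ) + t * I)‖ ^ 2 ≤
        ∫ t in (T / 4)..(4 * T), Real.exp (2 * K + 8) *
          ‖riemannZeta (((1 / 2 - x : ℝ) : ℂ) + t * I)‖ ^ 2 :=
          intervalIntegral.integral_mono_on hab
            (Pool.Agent.W479.BU.zeta_ii (by linarith) hab)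
            ((Pool.Agent.W479.BU.zeta_ii (by linarith) hab).const_mul _) hpt
      _ = Real.exp (2 * K + 8) * ∫ t in (T / 4)..(4 * T),
          ‖riemannZeta (((1 / 2 - x : ℝ) : ℂ) + t * I)‖ ^ 2 :=
          intervalIntegral.integral_const_mul _ _
      _ ≤ Real.exp (2 * K + 8) * (C * T * Real.log T) :=
          mul_le_mul_of_nonneg_left h1 (Real.exp_pos _).le
      _ = _ := by ring

/-- the local mean square at height `t` -/
noncomputable def FF (r t : ℝ) : ℝ :=
  ∫ x in (-(2 * r))..(2 * r), ∫ y in (-(2 * r))..(2 * r),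
    ‖riemannZeta (((1 / 2 + x : ℝ) : ℂ) + ((t + y : ℝ) : ℂ) * I)‖ ^ 2

theorem meas_G : Measurable fun p : ℝ × ℝ × ℝ =>
    ‖riemannZeta (((1 / 2 + p.1 : ℝ) : ℂ) + ((p.2.2 + p.2.1 : ℝ) : ℂ) * I)‖ ^ 2 := by
  refine (Measurable.norm ?_).pow_const 2
  refine Pool.Agent.W356.SD.meas_zeta.comp ?_
  fun_prop

theorem local_sup {C : ℝ} (hsq : Pool.Agent.W655.SD.SqC C) {t r : ℝ} (hr : 0 < r) (hr1 : r ≤ 1 / 4)
    (ht : 2 ≤ t) (z : ℂ) (hz : ‖z - (1 / 2 + t * I)‖ ≤ r) (hC : 0 < C) :
    ‖riemannZeta z‖ ^ 2 ≤ C / r ^ 2 * FF r t := by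
  set x1 : ℝ := z.re - 1 / 2 with hx1
  set y1 : ℝ := z.im - t with hy1
  have hzz : z - (1 / 2 + t * I) = (x1 : ℂ) + y1 * I := by
    apply Complex.ext
    · simp [hx1]
    · simp [hy1]
  have hxa : |x1| ≤ r := by
    have h := Complex.abs_re_le_norm (z - (1 / 2 + t * I))
    rw [hzz] at h
    rw [hzz] at hz
    have h2 : ((x1 : ℂ) + y1 * I).re = x1 := by simp
    rw [h2] at h
    linarith
  have hya : |y1| ≤ r := by
    have h := Complex.abs_im_le_norm (z - (1 / 2 + t * I))
    rw [hzz] at h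
    rw [hzz] at hz
    have h2 : ((x1 : ℂ) + y1 * I).im = y1 := by simp
    rw [h2] at h
    linarith
  have hx2 := abs_le.mp hxa
  have hy2 := abs_le.mp hya
  set g : ℂ → ℂ := fun w => riemannZeta (1 / 2 + w + t * I) with hg
  have hgv : ∀ x y : ℝ, g (x + y * I) =
      riemannZeta (((1 / 2 + x : ℝ) : ℂ) + ((t + y : ℝ) : ℂ) * I) := by
    intro x y
    simp only [hg]
    congr 1
    push_cast
    ring
  have hne : ∀ w : ℂ, |w.im| ≤ 1 → (1 / 2 + w + t * I) ≠ 1 := by
    intro w hw h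
    have := congrArg Complex.im h
    simp at this
    have := neg_abs_le w.im
    linarith
  have h := hsq g x1 y1 r hr (by
    intro w hw1 hw2
    have h1 : |w.im| ≤ 1 := by
      have h3 : |w.im| ≤ |w.im - y1| + |y1| := by
        have := abs_add_le (w.im - y1) y1
        rwa [sub_add_cancel] at this
      linarith
    exact (differentiableAt_riemannZeta (hne w h1)).comp w (by fun_prop))
  have hgz : g ((x1 : ℂ) + y1 * I) = riemannZeta z := by
    simp only [hg]
    congr 1
    rw [add_right_comm, ← hzz]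
    ring
  rw [hgz] at h
  refine h.trans ?_
  refine mul_le_mul_of_nonneg_left ?_ (by positivity)
  simp only [hgv]
  unfold FF
  have hc : ∀ S : Set (ℝ × ℝ), (∀ p ∈ S, -1 ≤ p.2) → ContinuousOn (fun p : ℝ × ℝ =>
      ‖riemannZeta (((1 / 2 + p.1 : ℝ) : ℂ) + ((t + p.2 : ℝ) : ℂ) * I)‖ ^ 2) S := by
    intro S hS
    refine ContinuousOn.pow (ContinuousOn.norm ?_) 2
    intro p hp
    apply ContinuousAt.continuousWithinAt
    have h1 : (((1 / 2 + p.1 : ℝ) : ℂ) + ((t + p.2 : ℝ) : ℂ) * I) ≠ 1 := by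
      intro h
      have h3 := congrArg Complex.im h
      simp at h3
      have := hS p hp
      linarith
    exact (differentiableAt_riemannZeta h1).continuousAt.comp
      (f := fun p : ℝ × ℝ => (((1 / 2 + p.1 : ℝ) : ℂ) + ((t + p.2 : ℝ) : ℂ) * I)) (by fun_prop)
  refine Pool.Agent.W655.SD.dbl_le_mono
    (fun x y => ‖riemannZeta (((1 / 2 + x : ℝ) : ℂ) + ((t + y : ℝ) : ℂ) * I)‖ ^ 2)
    (fun x y => ‖riemannZeta (((1 / 2 + x : ℝ) : ℂ) + ((t + y : ℝ) : ℂ) * I)‖ ^ 2)
    (by linarith) (by linarith) (by linarith) (by linarith) (by linarith) (by linarith)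
    (hc _ ?_) (hc _ ?_) (fun _ _ _ _ => le_rfl) (fun _ _ _ _ => by positivity)
  · intro p hp
    have := hp.2.1
    linarith
  · intro p hp
    have := hp.2.1
    linarith

theorem t_ZUP : P_ZUP := by
  intro A' hA'
  obtain ⟨Cs, hCs, hsq⟩ := Pool.Agent.W261.SD.ssq
  obtain ⟨C, T0, hC, hT0, hms⟩ := ms_near
  refine ⟨(A' + 4) / 2, by positivity, ?_⟩
  have hl : ∀ᶠ T : ℝ in atTop, max 20 (16 * C * Cs) ≤ Real.log T :=
    Real.tendsto_log_atTop.eventually_ge_atTop _
  filter_upwards [hl, eventually_ge_atTop T0] with T hL hT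
  have hL20 : 20 ≤ Real.log T := (le_max_left _ _).trans hL
  have hLC : 16 * C * Cs ≤ Real.log T := (le_max_right _ _).trans hL
  have hLp : 0 < Real.log T := by linarith
  have hT10 : 10 ≤ T := hT0.trans hT
  have hTp : 0 < T := by linarith
  set L := Real.log T with hLd
  set r : ℝ := 1 / L with hr
  have hrp : 0 < r := by positivity
  have hr1 : r ≤ 1 / 20 := by
    rw [hr]
    exact one_div_le_one_div_of_le (by norm_num) hL20
  set lam : ℝ := 16 * C * L ^ A' with hlam
  have hLA : 0 < L ^ A' := Real.rpow_pos_of_pos hLp _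
  have hlamp : 0 < lam := by positivity
  set E0 : Set ℝ := {t : ℝ | T / 2 ≤ t ∧ t ≤ 3 * T ∧ lam < FF r t} with hE0
  -- the measure of the exceptional set
  have hmk : volume E0 ≤ ENNReal.ofReal ((2 * r - -(2 * r)) * (2 * (2 * r)) * (C * T * L) / lam) := by
    refine Pool.Agent.W356.SD.markov3
      (fun x y t => ‖riemannZeta (((1 / 2 + x : ℝ) : ℂ) + ((t + y : ℝ) : ℂ) * I)‖ ^ 2) meas_G
      (-(2 * r)) (2 * r) (2 * r) (T / 2) (3 * T) (C * T * L) lam (by linarith) (by positivity)
      (by positivity) hlamp ?_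
    intro x hx y hy
    have hx' : |x| ≤ 2 / L := by
      rw [abs_le]
      have e : 2 / L = 2 * r := by rw [hr]; ring
      rw [e]
      exact ⟨hx.1.le, hx.2⟩
    have hy' : |y| ≤ 3 / 10 := by
      rw [abs_le]
      constructor
      · linarith [hy.1]
      · linarith [hy.2]
    exact Pool.Agent.W356.SD.shift_bound
      (fun t => ‖riemannZeta (((1 / 2 + x : ℝ) : ℂ) + (t : ℂ) * I)‖ ^ 2) T y (C * T * L)
      (by linarith) hy' (((Pool.Agent.W356.SD.cont_zeta_line (1 / 2 + x) T (by linarith)).norm).pow 2)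
      (fun t => by positivity) (hms T x hT hx')
  have hval : (2 * r - -(2 * r)) * (2 * (2 * r)) * (C * T * L) / lam ≤ T / L ^ A' := by
    have e : (2 * r - -(2 * r)) * (2 * (2 * r)) * (C * T * L) / lam = T / L ^ A' * (1 / L) := by
      rw [hlam, hr]
      field_simp
      ring
    rw [e]
    have h1 : 1 / L ≤ 1 := by
      rw [div_le_one hLp]
      linarith
    have h2 : 0 ≤ T / L ^ A' := by positivity
    nlinarith
  refine ⟨toMeasurable volume E0 ∩ Icc T (2 * T), (measurableSet_toMeasurable _ _).inter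
    measurableSet_Icc, inter_subset_right, ?_, ?_⟩
  · have h1 : volume (toMeasurable volume E0 ∩ Icc T (2 * T)) ≤ ENNReal.ofReal (T / L ^ A') :=
      (measure_mono inter_subset_left).trans (by
        rw [measure_toMeasurable]
        exact hmk.trans (ENNReal.ofReal_le_ofReal hval))
    have h2 : 0 ≤ T / L ^ A' := by positivity
    exact ENNReal.toReal_le_of_le_ofReal h2 h1
  · intro t ht htE z hz
    have htE0 : t ∉ E0 := by
      intro h
      apply htE
      exact ⟨subset_toMeasurable _ _ h, ⟨by linarith [ht.1], by linarith [ht.2]⟩⟩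
    have hF : FF r t ≤ lam := by
      by_contra hcon
      push Not at hcon
      exact htE0 ⟨by linarith [ht.1], by linarith [ht.2], hcon⟩
    have h1 := local_sup (C := Cs) hsq hrp (by linarith) (by linarith [ht.1]) z hz hCs
    have h2 : Cs / r ^ 2 * FF r t ≤ Cs / r ^ 2 * lam :=
      mul_le_mul_of_nonneg_left hF (by positivity)
    have h3 : Cs / r ^ 2 * lam = 16 * C * Cs * (L ^ 2 * L ^ A') := by
      rw [hlam, hr]
      field_simp
    have h4 : 16 * C * Cs * (L ^ 2 * L ^ A') ≤ (L ^ ((A' + 4) / 2)) ^ 2 := by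
      have e1 : (L ^ ((A' + 4) / 2)) ^ 2 = L ^ 2 * (L ^ 2 * L ^ A') := by
        rw [← Real.rpow_natCast (L ^ ((A' + 4) / 2)) 2, ← Real.rpow_mul hLp.le]
        have e2 : (A' + 4) / 2 * ((2 : ℕ) : ℝ) = (2 : ℕ) + ((2 : ℕ) + A') := by push_cast; ring
        rw [e2, Real.rpow_add hLp, Real.rpow_add hLp, Real.rpow_natCast]
      rw [e1]
      refine mul_le_mul_of_nonneg_right ?_ (by positivity)
      nlinarith
    have h5 : ‖riemannZeta z‖ ^ 2 ≤ (L ^ ((A' + 4) / 2)) ^ 2 := by
      refine h1.trans (h2.trans ?_)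
      rw [h3]
      exact h4
    exact (pow_le_pow_iff_left₀ (norm_nonneg _) (by positivity) two_ne_zero).1 h5

end Pool.Agent.Y914.LD
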